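import Pool.Agent.H14R2.RC.Defs
import Pool.Agent.H14R2.RC.S.EXPO1

namespace RC14
open scoped InnerProductSpace
open Finset

namespace EXPO2

/-- nontrivial words of length at most `ℓ` -/
abbrev U (ℓ : ℕ) := {u : FreeGroup (Fin 8) // u ≠ 1 ∧ u.norm ≤ ℓ}

/-- the letters of a word -/
def code (ℓ : ℕ) (u : U ℓ) : Fin ℓ → Option (Fin 8 × Bool) := fun i => u.1.toWord[(i : ℕ)]?

lemma code_inj (ℓ : ℕ) : Function.Injective (code ℓ) := by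
  intro u v h
  apply Subtype.ext
  apply FreeGroup.toWord_injective
  apply List.ext_getElem?
  intro i
  by_cases hi : i < ℓ
  · exact congrFun h ⟨i, hi⟩
  · have h1 : u.1.toWord.length ≤ i := u.2.2.trans (not_lt.1 hi)
    have h2 : v.1.toWord.length ≤ i := v.2.2.trans (not_lt.1 hi)
    rw [List.getElem?_eq_none h1, List.getElem?_eq_none h2]

instance (ℓ : ℕ) : Finite (U ℓ) := Finite.of_injective _ (code_inj ℓ)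

lemma card_U (ℓ : ℕ) : Nat.card (U ℓ) ≤ 17 ^ ℓ := by
  have h1 := Nat.card_le_card_of_injective _ (code_inj ℓ)
  have h2 : Nat.card (Fin ℓ → Option (Fin 8 × Bool)) = 17 ^ ℓ := by
    rw [Nat.card_eq_fintype_card]
    simp
  rwa [h2] at h1

/-- tuples of permutations for which `u` has many fixed points -/
abbrev S (n F : ℕ) (u : FreeGroup (Fin 8)) :=
  {x : Fin 8 → Equiv.Perm (Fin n) // F ≤ nfix (FreeGroup.lift x u)}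

lemma exists_word {n ℓ F : ℕ} {x : Fin 8 → Alt n}
    (hx : ¬ FewFix n ℓ F (fun i => (x i : Equiv.Perm (Fin n)))) :
    ∃ u : U ℓ, F ≤ nfix (FreeGroup.lift (fun i => (x i : Equiv.Perm (Fin n))) u.1) := by
  unfold FewFix at hx
  push Not at hx
  obtain ⟨u, h1, h2, h3⟩ := hx
  exact ⟨⟨u, h1, h2⟩, h3⟩

end EXPO2

open EXPO2 in
/-- union bound over all words of length `≤ ℓ`, for even permutations -/
theorem EXPO2 (n ℓ p F : ℕ) (hF : p * ℓ < F) (hn : F ≤ n) (hn2 : 2 ≤ n) (hℓ : 1 ≤ ℓ) :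
    Nat.card {x : Fin 8 → Alt n // ¬ FewFix n ℓ F (fun i => (x i : Equiv.Perm (Fin n)))} *
      (F - p * ℓ) ^ p * (n - p * ℓ) ^ (p * ℓ) ≤
      17 ^ ℓ * 2 ^ 8 * Fintype.card (Alt n) ^ 8 * (p * ℓ ^ 2) ^ p * n ^ (p * ℓ) := by
  classical
  have hinj : Nat.card {x : Fin 8 → Alt n // ¬ FewFix n ℓ F (fun i => (x i : Equiv.Perm (Fin n)))} ≤
      Nat.card (Σ u : U ℓ, S n F u.1) := by
    let g : {x : Fin 8 → Alt n // ¬ FewFix n ℓ F (fun i => (x i : Equiv.Perm (Fin n)))} →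
        Σ u : U ℓ, S n F u.1 := fun x =>
      ⟨(exists_word x.2).choose, ⟨fun i => (x.1 i : Equiv.Perm (Fin n)), (exists_word x.2).choose_spec⟩⟩
    have hcoe : ∀ x, ((g x).2 : Fin 8 → Equiv.Perm (Fin n)) = fun i => (x.1 i : Equiv.Perm (Fin n)) :=
      fun x => rfl
    refine Nat.card_le_card_of_injective g ?_
    intro x y hxy
    apply Subtype.ext
    funext i
    apply Subtype.ext
    have h1 : ∀ a b : (Σ u : U ℓ, S n F u.1), a = b →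
        (a.2 : Fin 8 → Equiv.Perm (Fin n)) = (b.2 : Fin 8 → Equiv.Perm (Fin n)) := by
      rintro a b rfl; rfl
    have h2 := h1 _ _ hxy
    rw [hcoe, hcoe] at h2
    exact congrFun h2 i
  have hsig : Nat.card (Σ u : U ℓ, S n F u.1) * ((F - p * ℓ) ^ p * (n - p * ℓ) ^ (p * ℓ)) ≤
      17 ^ ℓ * (n.factorial ^ 8 * (p * ℓ ^ 2) ^ p * n ^ (p * ℓ)) := by
    have := Fintype.ofFinite (U ℓ)
    rw [Nat.card_sigma, Finset.sum_mul]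
    calc ∑ u : U ℓ, Nat.card (S n F u.1) * ((F - p * ℓ) ^ p * (n - p * ℓ) ^ (p * ℓ))
        ≤ ∑ u : U ℓ, n.factorial ^ 8 * (p * ℓ ^ 2) ^ p * n ^ (p * ℓ) := by
          refine Finset.sum_le_sum fun u _ => ?_
          have := EXPO1 n ℓ p F u.1 u.2.1 u.2.2 hF hn
          rw [mul_assoc] at this
          exact this
      _ = Nat.card (U ℓ) * (n.factorial ^ 8 * (p * ℓ ^ 2) ^ p * n ^ (p * ℓ)) := by
          rw [Finset.sum_const, Finset.card_univ, smul_eq_mul, Nat.card_eq_fintype_card]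
      _ ≤ _ := Nat.mul_le_mul_right _ (card_U ℓ)
  have hfact : n.factorial = 2 * Fintype.card (Alt n) := by
    have : Nontrivial (Fin n) := Fin.nontrivial_iff_two_le.2 hn2
    rw [two_mul_card_alternatingGroup, Fintype.card_perm, Fintype.card_fin]
  calc Nat.card {x : Fin 8 → Alt n // ¬ FewFix n ℓ F (fun i => (x i : Equiv.Perm (Fin n)))} *
      (F - p * ℓ) ^ p * (n - p * ℓ) ^ (p * ℓ)
      = Nat.card {x : Fin 8 → Alt n // ¬ FewFix n ℓ F (fun i => (x i : Equiv.Perm (Fin n)))} *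
      ((F - p * ℓ) ^ p * (n - p * ℓ) ^ (p * ℓ)) := by ring
    _ ≤ Nat.card (Σ u : U ℓ, S n F u.1) * ((F - p * ℓ) ^ p * (n - p * ℓ) ^ (p * ℓ)) :=
        Nat.mul_le_mul_right _ hinj
    _ ≤ 17 ^ ℓ * (n.factorial ^ 8 * (p * ℓ ^ 2) ^ p * n ^ (p * ℓ)) := hsig
    _ = _ := by rw [hfact]; ring

namespace EXPO3

/-- the numerical inequality -/
lemma numeric (n ℓ C : ℕ) (δ D M : ℝ) (hn : 2 ≤ n) (hδ : 0 < δ)
    (h1 : (ℓ : ℝ) ^ 3 ≤ 2 * (n : ℝ) ^ (-δ) * D) (hD : 0 < D)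
    (hM : (n : ℝ) / 2 ≤ M) (hMn : M = n - (ℓ : ℝ) ^ 2) (h3 : (ℓ : ℝ) ^ 3 ≤ n)
    (h4 : 34 * Real.exp 1 ^ 2 ≤ (n : ℝ) ^ (δ / 2)) (h5 : 2 / δ * (C + 8) ≤ ℓ) :
    17 ^ ℓ * 2 ^ 8 * ((ℓ : ℝ) ^ 3) ^ ℓ * (n : ℝ) ^ (ℓ * ℓ) * (n : ℝ) ^ C ≤
      D ^ ℓ * M ^ (ℓ * ℓ) := by
  have hn0 : (0 : ℝ) < n := by
    have : (2 : ℝ) ≤ n := by exact_mod_cast hn
    linarith
  have hn2 : (2 : ℝ) ≤ n := by exact_mod_cast hn
  have hM0 : 0 < M := by linarith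
  -- (a)
  have ha : (n : ℝ) ^ (ℓ * ℓ) ≤ M ^ (ℓ * ℓ) * (Real.exp 1 ^ 2) ^ ℓ := by
    have e1 : (n : ℝ) = M * (1 + (ℓ : ℝ) ^ 2 / M) := by
      rw [hMn] at hM0 ⊢
      field_simp
      ring
    have e2 : (1 + (ℓ : ℝ) ^ 2 / M) ≤ Real.exp ((ℓ : ℝ) ^ 2 / M) := by
      have := Real.add_one_le_exp ((ℓ : ℝ) ^ 2 / M)
      linarith
    have e3 : (1 + (ℓ : ℝ) ^ 2 / M) ^ (ℓ * ℓ) ≤ (Real.exp 1 ^ 2) ^ ℓ := by
      calc (1 + (ℓ : ℝ) ^ 2 / M) ^ (ℓ * ℓ) ≤ Real.exp ((ℓ : ℝ) ^ 2 / M) ^ (ℓ * ℓ) :=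
            pow_le_pow_left₀ (by positivity) e2 _
        _ = Real.exp ((ℓ * ℓ : ℕ) * ((ℓ : ℝ) ^ 2 / M)) := by rw [← Real.exp_nat_mul]
        _ ≤ Real.exp ((2 * ℓ : ℕ) * 1) := by
            apply Real.exp_le_exp.2
            push_cast
            have e4 : (ℓ : ℝ) * ℓ * ((ℓ : ℝ) ^ 2 / M) = ℓ * ((ℓ : ℝ) ^ 3 / M) := by
              field_simp
            rw [e4, mul_one]
            have e5 : (ℓ : ℝ) ^ 3 / M ≤ 2 := by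
              rw [div_le_iff₀ hM0]
              linarith
            have e6 : (0 : ℝ) ≤ ℓ := by positivity
            nlinarith
        _ = (Real.exp 1 ^ 2) ^ ℓ := by
            rw [Real.exp_nat_mul, ← pow_mul]
    calc (n : ℝ) ^ (ℓ * ℓ) = M ^ (ℓ * ℓ) * (1 + (ℓ : ℝ) ^ 2 / M) ^ (ℓ * ℓ) := by
          rw [← mul_pow, ← e1]
      _ ≤ M ^ (ℓ * ℓ) * (Real.exp 1 ^ 2) ^ ℓ := by gcongr
  have hb : ((ℓ : ℝ) ^ 3) ^ ℓ ≤ (2 * (n : ℝ) ^ (-δ) * D) ^ ℓ := by gcongr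
  have hc : (34 * Real.exp 1 ^ 2 * (n : ℝ) ^ (-δ)) ^ ℓ ≤ (n : ℝ) ^ (-((C : ℝ) + 8)) := by
    have e1 : 34 * Real.exp 1 ^ 2 * (n : ℝ) ^ (-δ) ≤ (n : ℝ) ^ (-(δ / 2)) := by
      calc 34 * Real.exp 1 ^ 2 * (n : ℝ) ^ (-δ) ≤ (n : ℝ) ^ (δ / 2) * (n : ℝ) ^ (-δ) := by gcongr
        _ = (n : ℝ) ^ (-(δ / 2)) := by
            rw [← Real.rpow_add hn0]
            congr 1
            ring
    calc (34 * Real.exp 1 ^ 2 * (n : ℝ) ^ (-δ)) ^ ℓ ≤ ((n : ℝ) ^ (-(δ / 2))) ^ ℓ :=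
          pow_le_pow_left₀ (by positivity) e1 _
      _ = (n : ℝ) ^ (-(δ / 2) * ℓ) := by
          rw [← Real.rpow_natCast, ← Real.rpow_mul hn0.le]
      _ ≤ (n : ℝ) ^ (-((C : ℝ) + 8)) := by
          apply Real.rpow_le_rpow_of_exponent_le (by linarith)
          have e2 : (C : ℝ) + 8 ≤ δ / 2 * ℓ := by
            have := mul_le_mul_of_nonneg_left h5 (by positivity : 0 ≤ δ / 2)
            have e3 : δ / 2 * (2 / δ * (C + 8)) = (C : ℝ) + 8 := by field_simp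
            linarith
          linarith
  have hd : 2 ^ 8 * (n : ℝ) ^ C * (n : ℝ) ^ (-((C : ℝ) + 8)) ≤ 1 := by
    have e1 : (n : ℝ) ^ (-((C : ℝ) + 8)) = ((n : ℝ) ^ C)⁻¹ * ((n : ℝ) ^ 8)⁻¹ := by
      rw [Real.rpow_neg hn0.le, Real.rpow_add hn0, Real.rpow_natCast, mul_inv]
      norm_num
    rw [e1]
    have e2 : 2 ^ 8 * (n : ℝ) ^ C * (((n : ℝ) ^ C)⁻¹ * ((n : ℝ) ^ 8)⁻¹) = 2 ^ 8 / (n : ℝ) ^ 8 := by
      field_simp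
    rw [e2, div_le_one (by positivity)]
    exact pow_le_pow_left₀ (by norm_num) hn2 8
  calc 17 ^ ℓ * 2 ^ 8 * ((ℓ : ℝ) ^ 3) ^ ℓ * (n : ℝ) ^ (ℓ * ℓ) * (n : ℝ) ^ C
      ≤ 17 ^ ℓ * 2 ^ 8 * (2 * (n : ℝ) ^ (-δ) * D) ^ ℓ * (M ^ (ℓ * ℓ) * (Real.exp 1 ^ 2) ^ ℓ) *
          (n : ℝ) ^ C := by gcongr
    _ = (2 ^ 8 * (n : ℝ) ^ C * (34 * Real.exp 1 ^ 2 * (n : ℝ) ^ (-δ)) ^ ℓ) *
          (D ^ ℓ * M ^ (ℓ * ℓ)) := by
        rw [show (34 : ℝ) = 17 * 2 by norm_num]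
        simp only [mul_pow]
        ring
    _ ≤ (2 ^ 8 * (n : ℝ) ^ C * (n : ℝ) ^ (-((C : ℝ) + 8))) * (D ^ ℓ * M ^ (ℓ * ℓ)) := by
        gcongr
    _ ≤ 1 * (D ^ ℓ * M ^ (ℓ * ℓ)) := by gcongr
    _ = D ^ ℓ * M ^ (ℓ * ℓ) := one_mul _

end EXPO3

open EXPO3 in
/-- asymptotic form -/
theorem EXPO3 (δ : ℝ) (hδ : 0 < δ) (hδ1 : δ ≤ 1 / 4) (C : ℕ) :
    ∀ᶠ n : ℕ in Filter.atTop,
      (Nat.card {x : Fin 8 → Alt n // ¬ FewFix n ⌊(n : ℝ) ^ (1 / 3 - δ / 2)⌋₊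
        ⌈(n : ℝ) ^ (1 - δ / 2)⌉₊ (fun i => (x i : Equiv.Perm (Fin n)))} : ℝ) * (n : ℝ) ^ C ≤
      (Fintype.card (Alt n) : ℝ) ^ 8 := by
  have t1 : ∀ s : ℝ, 0 < s → ∀ B : ℝ, ∀ᶠ n : ℕ in Filter.atTop, B ≤ (n : ℝ) ^ s := by
    intro s hs B
    exact ((tendsto_rpow_atTop hs).comp tendsto_natCast_atTop_atTop).eventually_ge_atTop B
  filter_upwards [t1 (1 / 3 - δ / 2) (by linarith) (2 / δ * (C + 8) + 1),
    t1 (δ / 2) (by linarith) (34 * Real.exp 1 ^ 2),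
    t1 (1 / 3 + δ / 2) (by linarith) 2, Filter.eventually_ge_atTop 2] with n h1 h2 h3 h4
  have hn2 : (2 : ℝ) ≤ n := by exact_mod_cast h4
  have hn0 : (0 : ℝ) < n := by linarith
  set ℓ := ⌊(n : ℝ) ^ (1 / 3 - δ / 2)⌋₊ with hℓ
  set F := ⌈(n : ℝ) ^ (1 - δ / 2)⌉₊ with hF
  have hpos : 0 ≤ (n : ℝ) ^ (1 / 3 - δ / 2) := by positivity
  have hℓ1 : (ℓ : ℝ) ≤ (n : ℝ) ^ (1 / 3 - δ / 2) := Nat.floor_le hpos
  have hℓ2 : 2 / δ * (C + 8) ≤ ℓ := by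
    have := Nat.lt_floor_add_one ((n : ℝ) ^ (1 / 3 - δ / 2))
    have h5 : (n : ℝ) ^ (1 / 3 - δ / 2) < ℓ + 1 := this
    linarith
  have hℓpos : 1 ≤ ℓ := by
    have h5 : (0 : ℝ) < ℓ := lt_of_lt_of_le (by positivity) hℓ2
    exact_mod_cast h5
  have hF1 : (n : ℝ) ^ (1 - δ / 2) ≤ F := Nat.le_ceil _
  have hFn : F ≤ n := by
    rw [hF, Nat.ceil_le]
    calc (n : ℝ) ^ (1 - δ / 2) ≤ (n : ℝ) ^ (1 : ℝ) :=
          Real.rpow_le_rpow_of_exponent_le (by linarith) (by linarith)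
      _ = n := Real.rpow_one _
  -- `ℓ² ≤ n^{2/3-δ} ≤ n^{1-δ/2}/2 ≤ n/2`
  have hsq : (ℓ : ℝ) ^ 2 ≤ (n : ℝ) ^ (2 / 3 - δ) := by
    calc (ℓ : ℝ) ^ 2 ≤ ((n : ℝ) ^ (1 / 3 - δ / 2)) ^ 2 := by gcongr
      _ = (n : ℝ) ^ (2 / 3 - δ) := by
          rw [← Real.rpow_natCast, ← Real.rpow_mul hn0.le]
          congr 1
          push_cast
          ring
  have hcube : (ℓ : ℝ) ^ 3 ≤ (n : ℝ) ^ (1 - 3 * δ / 2) := by
    calc (ℓ : ℝ) ^ 3 ≤ ((n : ℝ) ^ (1 / 3 - δ / 2)) ^ 3 := by gcongr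
      _ = (n : ℝ) ^ (1 - 3 * δ / 2) := by
          rw [← Real.rpow_natCast, ← Real.rpow_mul hn0.le]
          congr 1
          push_cast
          ring
  have hhalf : (n : ℝ) ^ (2 / 3 - δ) ≤ (n : ℝ) ^ (1 - δ / 2) / 2 := by
    rw [le_div_iff₀ (by norm_num)]
    calc (n : ℝ) ^ (2 / 3 - δ) * 2 ≤ (n : ℝ) ^ (2 / 3 - δ) * (n : ℝ) ^ (1 / 3 + δ / 2) := by gcongr
      _ = (n : ℝ) ^ (1 - δ / 2) := by
          rw [← Real.rpow_add hn0]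
          congr 1
          ring
  have hle1 : (n : ℝ) ^ (1 - δ / 2) ≤ n := by
    calc (n : ℝ) ^ (1 - δ / 2) ≤ (n : ℝ) ^ (1 : ℝ) :=
          Real.rpow_le_rpow_of_exponent_le (by linarith) (by linarith)
      _ = n := Real.rpow_one _
  set D : ℝ := F - (ℓ : ℝ) ^ 2 with hDdef
  set M : ℝ := n - (ℓ : ℝ) ^ 2 with hMdef
  have hD2 : (n : ℝ) ^ (1 - δ / 2) / 2 ≤ D := by
    rw [hDdef]; linarith
  have hD0 : 0 < D := lt_of_lt_of_le (by positivity) hD2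
  have hM2 : (n : ℝ) / 2 ≤ M := by
    rw [hMdef]; linarith
  have hℓF : ℓ * ℓ < F := by
    have : ((ℓ * ℓ : ℕ) : ℝ) < F := by
      push_cast
      have : 0 < F - (ℓ : ℝ) ^ 2 := hD0
      nlinarith
    exact_mod_cast this
  have hN := numeric n ℓ C δ D M h4 hδ
    (by
      calc (ℓ : ℝ) ^ 3 ≤ (n : ℝ) ^ (1 - 3 * δ / 2) := hcube
        _ = (n : ℝ) ^ (-δ) * (n : ℝ) ^ (1 - δ / 2) := by
            rw [← Real.rpow_add hn0]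
            congr 1
            ring
        _ ≤ (n : ℝ) ^ (-δ) * (2 * D) := by
            gcongr
            linarith
        _ = 2 * (n : ℝ) ^ (-δ) * D := by ring)
    hD0 hM2 hMdef
    (by
      calc (ℓ : ℝ) ^ 3 ≤ (n : ℝ) ^ (1 - 3 * δ / 2) := hcube
        _ ≤ (n : ℝ) ^ (1 : ℝ) := Real.rpow_le_rpow_of_exponent_le (by linarith) (by linarith)
        _ = n := Real.rpow_one _)
    h2 hℓ2
  have hE := EXPO2 n ℓ ℓ F hℓF hFn h4 hℓpos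
  have hE' : (Nat.card {x : Fin 8 → Alt n // ¬ FewFix n ℓ F
      (fun i => (x i : Equiv.Perm (Fin n)))} : ℝ) * D ^ ℓ * M ^ (ℓ * ℓ) ≤
      17 ^ ℓ * 2 ^ 8 * (Fintype.card (Alt n) : ℝ) ^ 8 * ((ℓ : ℝ) ^ 3) ^ ℓ * (n : ℝ) ^ (ℓ * ℓ) := by
    have e1 : (((F - ℓ * ℓ : ℕ)) : ℝ) = D := by
      rw [Nat.cast_sub hℓF.le, hDdef]
      push_cast
      ring
    have e2 : (((n - ℓ * ℓ : ℕ)) : ℝ) = M := by
      rw [Nat.cast_sub (hℓF.le.trans hFn), hMdef]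
      push_cast
      ring
    have e3 : ((Nat.card {x : Fin 8 → Alt n // ¬ FewFix n ℓ F
      (fun i => (x i : Equiv.Perm (Fin n)))} * (F - ℓ * ℓ) ^ ℓ * (n - ℓ * ℓ) ^ (ℓ * ℓ) : ℕ) : ℝ) ≤
      ((17 ^ ℓ * 2 ^ 8 * Fintype.card (Alt n) ^ 8 * (ℓ * ℓ ^ 2) ^ ℓ * n ^ (ℓ * ℓ) : ℕ) : ℝ) := by
      exact_mod_cast hE
    rw [Nat.cast_mul, Nat.cast_mul, Nat.cast_pow, Nat.cast_pow, e1, e2] at e3
    refine e3.trans (le_of_eq ?_)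
    push_cast
    ring
  set N : ℝ := (Nat.card {x : Fin 8 → Alt n // ¬ FewFix n ℓ F
      (fun i => (x i : Equiv.Perm (Fin n)))} : ℝ) with hNdef
  have hM0 : 0 < M := by linarith
  have hDM : 0 < D ^ ℓ * M ^ (ℓ * ℓ) := by positivity
  have hfin : N * (n : ℝ) ^ C * (D ^ ℓ * M ^ (ℓ * ℓ)) ≤
      (Fintype.card (Alt n) : ℝ) ^ 8 * (D ^ ℓ * M ^ (ℓ * ℓ)) := by
    calc N * (n : ℝ) ^ C * (D ^ ℓ * M ^ (ℓ * ℓ)) = (N * D ^ ℓ * M ^ (ℓ * ℓ)) * (n : ℝ) ^ C := by ring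
      _ ≤ (17 ^ ℓ * 2 ^ 8 * (Fintype.card (Alt n) : ℝ) ^ 8 * ((ℓ : ℝ) ^ 3) ^ ℓ *
            (n : ℝ) ^ (ℓ * ℓ)) * (n : ℝ) ^ C := by gcongr
      _ = (Fintype.card (Alt n) : ℝ) ^ 8 * (17 ^ ℓ * 2 ^ 8 * ((ℓ : ℝ) ^ 3) ^ ℓ *
            (n : ℝ) ^ (ℓ * ℓ) * (n : ℝ) ^ C) := by ring
      _ ≤ (Fintype.card (Alt n) : ℝ) ^ 8 * (D ^ ℓ * M ^ (ℓ * ℓ)) := by gcongr
  exact le_of_mul_le_mul_right hfin hDM

end RC14
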